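import Pool.Agent.Helper84.HD.St

/-!
# Project HD, module PD: periodic sets have a density
-/

set_option autoImplicit false

namespace Pool.Agent.Helper73.HD

open Finset Filter Topology Pool.Agent.Helper84.HD
open Pool.Agent.Helper4.DE (C Lg LogDens IsMultClosed t D Z)

private lemma per_PD (B : Set ℕ) (T n : ℕ) (hn : 0 < n) :
    n + T.factorial ∈ MB (B ∩ Set.Iic T) ↔ n ∈ MB (B ∩ Set.Iic T) := by
  have key : ∀ k, 0 < k → ∀ b ∈ B ∩ Set.Iic T, b ∣ k → b ∣ T.factorial := by
    intro k hk b hb hd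
    exact Nat.dvd_factorial (Nat.pos_of_dvd_of_pos hd hk) hb.2
  constructor
  · rintro ⟨h0, b, hb, hd⟩
    exact ⟨hn, b, hb, (Nat.dvd_add_left (key _ h0 b hb hd)).mp hd⟩
  · rintro ⟨h0, b, hb, hd⟩
    exact ⟨Nat.add_pos_left hn _, b, hb, dvd_add hd (key _ h0 b hb hd)⟩

private lemma step_PD (S : Set ℕ) (m : ℕ) (hper : ∀ n, 0 < n → (n + m ∈ S ↔ n ∈ S)) (N : ℕ) :
    C S (N + m) = C S N + C S m := by
  classical
  induction N with
  | zero =>
    have h0 : C S 0 = 0 := by
      unfold C
      simp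
    rw [h0, Nat.zero_add, zero_add]
  | succ N ih =>
    rw [show N + 1 + m = (N + m) + 1 by ring, Pool.Agent.Helper4.DE.C_succ,
      Pool.Agent.Helper4.DE.C_succ, ih]
    have h := hper (N + 1) (Nat.succ_pos _)
    rw [show N + 1 + m = N + m + 1 by ring] at h
    by_cases h1 : N + 1 ∈ S
    · rw [if_pos h1, if_pos (h.mpr h1)]
      ring
    · rw [if_neg h1, if_neg (fun h2 => h1 (h.mp h2))]
      ring

/-- **Module PD.** -/
theorem hPD : StPD := by
  intro B T
  set S := MB (B ∩ Set.Iic T) with hS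
  set m := T.factorial with hm
  have hm0 : 0 < m := Nat.factorial_pos T
  have hmR : (0 : ℝ) < m := by exact_mod_cast hm0
  have hstep := step_PD S m (fun n hn => per_PD B T n hn)
  have hmul : ∀ a r : ℕ, C S (r + a * m) = C S r + a * C S m := by
    intro a r
    induction a with
    | zero => simp
    | succ a ih =>
      rw [show r + (a + 1) * m = (r + a * m) + m by ring, hstep, ih]
      push_cast
      ring
  have hk0 : 0 ≤ C S m := Pool.Agent.Helper4.DE.C_nonneg S m
  have hk1 : C S m ≤ m := Pool.Agent.Helper4.DE.C_le S m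
  have hlim : Tendsto (fun N : ℕ => C S N / N) atTop (𝓝 (C S m / m)) := by
    rw [tendsto_iff_norm_sub_tendsto_zero]
    have h0 : Tendsto (fun N : ℕ => (m : ℝ) / N) atTop (𝓝 0) :=
      tendsto_const_div_atTop_nhds_zero_nat _
    refine squeeze_zero' (Eventually.of_forall fun _ => norm_nonneg _) ?_ h0
    filter_upwards [eventually_gt_atTop 0] with N hN
    have hN' : (0 : ℝ) < N := by exact_mod_cast hN
    have h1 := hmul (N / m) (N % m)
    have h2 : N % m + N / m * m = N := by
      rw [mul_comm]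
      exact Nat.mod_add_div N m
    rw [h2] at h1
    have h3 : (N : ℝ) = (N % m : ℕ) + (N / m : ℕ) * m := by exact_mod_cast h2.symm
    have h4 : ((N % m : ℕ) : ℝ) ≤ m := by exact_mod_cast (Nat.mod_lt N hm0).le
    have h5 := Pool.Agent.Helper4.DE.C_nonneg S (N % m)
    have h6 := Pool.Agent.Helper4.DE.C_le S (N % m)
    have h7 : (0 : ℝ) ≤ (N % m : ℕ) := Nat.cast_nonneg _
    have h8 : C S N / N - C S m / m = (C S (N % m) - C S m / m * (N % m : ℕ)) / N := by
      rw [h1]
      field_simp
      rw [h3]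
      ring
    have h9 : 0 ≤ C S m / m := div_nonneg hk0 hmR.le
    have h10 : C S m / m ≤ 1 := (div_le_one hmR).mpr hk1
    rw [h8, Real.norm_eq_abs, abs_div, abs_of_pos hN']
    refine div_le_div_of_nonneg_right (abs_le.mpr ⟨?_, ?_⟩) hN'.le
    · nlinarith
    · nlinarith
  rw [show t S = C S m / m from hlim.liminf_eq]
  exact hlim

end Pool.Agent.Helper73.HD
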